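import Pool.Agent.BLP.StmtsA

namespace Pool.Agent.BLP.H95

theorem qua (pab : PabStmt) (exi : ExiStmt) (pnt : PntStmt) (spk : SpkStmt) (cro : CroStmt) :
    QuaStmt := by
  intro b hb m m' n n' s s' t t' hm hmn hn hs hst ht
  obtain ⟨τ, hτ, hτE⟩ := exi b hb m' n s t' hmn (by linarith)
  obtain ⟨σ, hσ, hσE⟩ := exi b hb m n' s' t (by omega) (by linarith)
  have pσ := pab m n' s' t σ hσ (by omega)
  have h1 : τ (m' - 1) ≤ σ (m' - 1) := by
    rw [hτ.1]
    exact hs.trans (pσ.2.1 (m' - 1) (by omega) (by omega)).1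
  have h2 : σ n ≤ τ n := by
    rw [hτ.2.1]
    exact (pσ.2.1 n (by omega) (by omega)).2.trans ht
  obtain ⟨k, u, hk1, hk2, hu1, hu2, hu3, hu4⟩ := cro m' n τ σ hmn hτ.2.2
    (fun r hr1 hr2 => hσ.2.2 r (by omega) (by omega)) h1 h2
  have hsu : s' ≤ u := (pσ.2.1 (k - 1) (by omega) (by omega)).1.trans hu3
  have hut : u ≤ t := hu4.trans (pσ.2.1 k (by omega) (by omega)).2
  have e1 := pnt b hb m' k n s u t' τ hk1 hk2 hτ hτE hu1 hu2
  have e2 := pnt b hb m k n' s' u t σ (by omega) (by omega) hσ hσE hu3 hu4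
  have i1 := spk b hb m' k n' s u t hk1 (by omega) (by linarith) hut
  have i2 := spk b hb m k n s' u t' (by omega) hk2 hsu (by linarith)
  linarith

end Pool.Agent.BLP.H95
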